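import Pool.Agent.P8H39.TI.Stm6
import Pool.Agent.P8H54.TI.Wb

/-! # Project TI, package STR -/

set_option autoImplicit false

namespace Pool.Agent.P8H38.TI

open Finset
open Pool.Agent.P8H39.TI

noncomputable section

lemma desc_lt {M K : ℕ} (h1 : 1 ≤ K) (h2 : K ≤ M) :
    M.descFactorial K < (M + 1).descFactorial K := by
  obtain ⟨j, rfl⟩ : ∃ j, K = j + 1 := ⟨K - 1, by omega⟩
  rw [Nat.succ_descFactorial_succ, Nat.descFactorial_succ]
  have h3 : 0 < M.descFactorial j := Nat.descFactorial_pos.2 (by omega)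
  exact Nat.mul_lt_mul_of_pos_right (by omega) h3

theorem str (hB : S_WB) : S_STR := by
  intro t m κ N ht hm hmκ hN hκN
  obtain ⟨M, rfl⟩ : ∃ M, N = M + 1 := ⟨N - 1, by omega⟩
  refine lt_of_lt_of_le ?_ (hB t m κ M ht hm hmκ (by omega) (by omega))
  unfold TT
  have hpos : ∀ a, (0 : ℝ) < ((M + a).descFactorial (m + a) : ℝ) := by
    intro a
    have : 0 < (M + a).descFactorial (m + a) := Nat.descFactorial_pos.2 (by omega)
    exact_mod_cast this
  have hlt : ∀ a, ((M + a).descFactorial (m + a) : ℝ) < ((M + 1 + a).descFactorial (m + a) : ℝ) := by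
    intro a
    have h := desc_lt (M := M + a) (K := m + a) (by omega) (by omega)
    rw [show M + 1 + a = M + a + 1 by ring]
    exact_mod_cast h
  refine Finset.sum_lt_sum (fun a _ => ?_) ⟨0, Finset.mem_range.2 (by omega), ?_⟩
  · exact div_le_div_of_nonneg_left (by positivity) (hpos a) (hlt a).le
  · refine div_lt_div_of_pos_left ?_ (hpos 0) (hlt 0)
    have h1 : 0 < (m + 0 - 1).choose 0 := by simp
    have h2 : 0 < (t + m - 1).choose (m + 0) := Nat.choose_pos (by omega)
    have h3 : 0 < κ.descFactorial (m + 0) := Nat.descFactorial_pos.2 (by omega)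
    have h1' : (0 : ℝ) < ((m + 0 - 1).choose 0 : ℝ) := by exact_mod_cast h1
    have h2' : (0 : ℝ) < ((t + m - 1).choose (m + 0) : ℝ) := by exact_mod_cast h2
    have h3' : (0 : ℝ) < (κ.descFactorial (m + 0) : ℝ) := by exact_mod_cast h3
    exact mul_pos (mul_pos h1' h2') h3'

theorem t_STR : S_STR := str Pool.Agent.P8H54.TI.t_WB

end

end Pool.Agent.P8H38.TI
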